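import Pool.Agent.Helper32.HB.NmB

/-! # HB module Cho: generic models satisfy the Axiom of Choice -/

set_option autoImplicit false

namespace Pool.Agent.Helper32.HB

open Set Filter Pool.Agent.Helper33.HM Pool.Agent.Helper33.HMG

universe u

variable {P : Type u} [Preorder P] [OrderTop P]

/-- A generic model whose set of names is closed under `chN` satisfies the Axiom of Choice. -/
theorem zfc_of_ch {R : Type} {W : R → (ℕ → Nm P) → P → Nm P → Prop} (g : Gen W)
    (hch : ∀ τ ∈ g.N, chN τ ∈ g.N) : IsTransModelZFC g.M := sorry

end Pool.Agent.Helper32.HB
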