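import Pool.Agent.Helper32.HB.Event

/-! # HB module Ev1: generic filters respect countable Boolean operations -/

set_option autoImplicit false

namespace Pool.Agent.Helper32.HB

open Set Filter Pool.Agent.Helper33.HM

universe u

variable {P : Type u} [Preorder P]

instance : CountableInterFilter (aeG P) := sorry

theorem ae_dense {D : Set P} (h : DenseP D) : ∀ᶠ G in aeG P, ∃ p ∈ D, p ∈ G.carrier := sorry

theorem fr_top (G : GF P) : Fr G (⊤ : RO P) := sorry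

theorem fr_mono {G : GF P} {U V : RO P} (h : U ≤ V) (hU : Fr G U) : Fr G V := sorry

theorem fr_inf {G : GF P} {U V : RO P} : Fr G (U ⊓ V) ↔ Fr G U ∧ Fr G V := sorry

theorem ae_compl (U : RO P) : ∀ᶠ G in aeG P, (Fr G Uᶜ ↔ ¬ Fr G U) := sorry

theorem ae_sup (U V : RO P) : ∀ᶠ G in aeG P, (Fr G (U ⊔ V) ↔ Fr G U ∨ Fr G V) := sorry

theorem ae_himp (U V : RO P) : ∀ᶠ G in aeG P, (Fr G (U ⇨ V) ↔ (Fr G U → Fr G V)) := sorry

theorem ae_iSup {ι : Sort*} [Countable ι] (U : ι → RO P) :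
    ∀ᶠ G in aeG P, (Fr G (⨆ i, U i) ↔ ∃ i, Fr G (U i)) := sorry

theorem ae_iInf {ι : Sort*} [Countable ι] (U : ι → RO P) :
    ∀ᶠ G in aeG P, (Fr G (⨅ i, U i) ↔ ∀ i, Fr G (U i)) := sorry

end Pool.Agent.Helper32.HB
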