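import Pool.Agent.Helper32.HB.Event

/-! # HB module Ev2: generic filters respect the matrix of the sentence -/

set_option autoImplicit false

namespace Pool.Agent.Helper32.HB

open Set Filter Pool.Agent.Helper33.HM

universe u

variable {P : Type u} [Preorder P]

theorem ae_pruned (T : List Bool → RO P) :
    ∀ᶠ G in aeG P, (Fr G (pruned T) ↔ pruned fun σ => Fr G (T σ)) := sorry

theorem ae_memV (x : ℕ → RO P) (T : List Bool → RO P) :
    ∀ᶠ G in aeG P, (Fr G (memV x T) ↔ memV (fun n => Fr G (x n)) fun σ => Fr G (T σ)) := sorry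

theorem ae_nullV (T : List Bool → RO P) :
    ∀ᶠ G in aeG P, (Fr G (nullV T) ↔ nullV fun σ => Fr G (T σ)) := sorry

theorem ae_fat (T : List Bool → RO P) :
    ∀ᶠ G in aeG P, (Fr G (fat T) ↔ fat fun σ => Fr G (T σ)) := sorry

theorem ae_nwdV (F T : List Bool → RO P) :
    ∀ᶠ G in aeG P, (Fr G (nwdV F T) ↔ nwdV (fun σ => Fr G (F σ)) fun σ => Fr G (T σ)) := sorry

end Pool.Agent.Helper32.HB
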