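import Pool.Agent.Helper32.HB.NmB

/-! # HB module Nam: names of points -/

set_option autoImplicit false

namespace Pool.Agent.Helper32.HB

open Set Filter Pool.Agent.Helper33.HM Pool.Agent.Helper33.HMG

universe u

variable {P : Type u} [Preorder P]

theorem mem_memv {σ τ : Nm P} {p : P} : p ∈ memv σ τ ↔ fmem σ τ p := sorry

variable [OrderTop P]

theorem nN_inj {m n : ℕ} {p : P} (h : feq (nN m) (nN n) p) : m = n := sorry

theorem fmem_nN_nm {x : ℕ → RO P} {n : ℕ} {p : P} : fmem (nN n) (nm x) p ↔ p ∈ x n := sorry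

/-- The point named by `nm x` is `x`. -/
theorem rl_nm (x : ℕ → RO P) : rl (nm x) = x := sorry

theorem cdV_apply (F : ℕ → List Bool → RO P) (n : ℕ) (σ : List Bool) :
    cdV F (Nat.pair n (Encodable.encode σ)) = F n σ := sorry

theorem tc_nm_cdV (F : ℕ → List Bool → RO P) (n : ℕ) : tc (nm (cdV F)) n = F n := sorry

/-- A name forced to be a subset of `ω` is forced to be equal to the name of its truth values. -/
theorem feq_nm {τ : Nm P} {p : P}
    (hτ : ∀ σ : Nm P, ∀ q, q ≤ p → fmem σ τ q → fmem σ (chk PSet.omega) q) :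
    feq τ (nm (rl τ)) p := sorry

theorem feq_nm_nm {x y : ℕ → RO P} {p : P} (h : p ∈ ⨅ n : ℕ, iffV (x n) (y n)) :
    feq (nm x) (nm y) p := sorry

theorem isSetName_SE (α : Nm P) : IsSetName (SE α) := sorry

theorem mem_realP {x : ℕ → Prop} {z : ZFSet.{0}} :
    z ∈ realP x ↔ ∃ n, x n ∧ z = ZFSet.mk (PSet.ofNat n) := sorry

theorem realP_inj {x y : ℕ → Prop} (h : realP x = realP y) : x = y := sorry

section Model

variable {R : Type} {W : R → (ℕ → Nm P) → P → Nm P → Prop} (g : Gen W)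

theorem fr_pt {U : RO P} : Fr (pt g) U ↔ ∃ k, g.pc k ∈ U := sorry

/-- The point of a name of the fragment. -/
theorem fr_rl {τ : Nm P} (hτ : τ ∈ g.N) (n : ℕ) :
    Fr (pt g) (rl τ n) ↔ ZFSet.mk (PSet.ofNat n) ∈ g.val τ := sorry

/-- If `realP x ∈ M` then `x` is the point of a name of the fragment which is forced to be a subset
of `ω`. -/
theorem exists_name_of_real {x : ℕ → Prop} (hx : realP x ∈ g.M) :
    ∃ τ ∈ g.N, g.val τ = realP x ∧ (∀ n, Fr (pt g) (rl τ n) ↔ x n) ∧
      ∃ k, ∀ σ : Nm P, ∀ q, q ≤ g.pc k → fmem σ τ q → fmem σ (chk PSet.omega) q := sorry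

/-- The value of the name of a point. -/
theorem val_nm {x : ℕ → RO P} (hx : nm x ∈ g.N) :
    g.val (nm x) = realP fun n => Fr (pt g) (x n) := sorry

/-- The code of a sequence of sets of words with a name in the fragment. -/
theorem cd_mem {x : Nm P} (hx : nm (cdV (tc x)) ∈ g.N) :
    cd (fun n σ => Fr (pt g) (tc x n σ)) ∈ realsP g.M := sorry

end Model

end Pool.Agent.Helper32.HB
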