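import Pool.Agent.Helper32.HB.NmB

/-! # HB module Pnt: generic sequences with requirements -/

set_option autoImplicit false

namespace Pool.Agent.Helper32.HB

open Set Filter Pool.Agent.Helper33.HM Pool.Agent.Helper33.HMG

universe u

variable {P : Type u} [Preorder P] [OrderTop P]

/-- Generic sequences exist with arbitrary countably many further requirements `W`, closed under
`chN`, and with a point in arbitrary generic events `E r v`, `v` any finite sequence of names of the
fragment. -/
theorem exists_point {R R' : Type} [Countable R] [Countable R']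
    (W : R → (ℕ → Nm P) → P → Nm P → Prop) (E : R' → (ℕ → Nm P) → Set (GF P))
    (hE : ∀ r v, ∀ᶠ G in aeG P, G ∈ E r v) :
    ∃ (R₁ : Type) (W₁ : R₁ → (ℕ → Nm P) → P → Nm P → Prop) (g : Gen W₁),
      (∀ τ ∈ g.N, chN τ ∈ g.N) ∧
      (∀ r (t : List (Nm P)), (∀ x ∈ t, x ∈ g.N) →
        ∃ k, (∃ x ∈ g.N, W r (asg t) (g.pc k) x) ∨ ∀ q, q ≤ g.pc k → ∀ x, ¬ W r (asg t) q x) ∧
      ∀ r (t : List (Nm P)), (∀ x ∈ t, x ∈ g.N) → pt g ∈ E r (asg t) := sorry

end Pool.Agent.Helper32.HB
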