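import Pool.Agent.Helper33.HM.Val
import Pool.Agent.Helper32.HB.Sent

/-! # HB module Sen: the sentence and `Val Prop` -/

set_option autoImplicit false

namespace Pool.Agent.Helper32.HB

open Set Pool.Agent.Helper33.HM

theorem pruned_iff {T : List Bool → Prop} : pruned T ↔ Pruned T := sorry

theorem memV_iff {x : ℕ → Prop} {T : List Bool → Prop} : memV x T ↔ InCl x T := sorry

theorem nullV_iff {T : List Bool → Prop} : nullV T ↔ Null T := sorry

theorem fat_iff {T : List Bool → Prop} : fat T ↔ Fat T := sorry

theorem nwdV_iff {F T : List Bool → Prop} : nwdV F T ↔ Nwd F T := sorry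

theorem cd_apply {F : ℕ → List Bool → Prop} {n : ℕ} {σ : List Bool} :
    cd F (Nat.pair n (Encodable.encode σ)) ↔ F n σ := sorry

theorem val_prop_of_sentence (h : Sentence univ univ) : Val Prop := sorry

end Pool.Agent.Helper32.HB
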