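import Pool.Agent.Helper32.HB.NmB

/-! # HB module Tra: the transfer to a countable transitive model -/

set_option autoImplicit false

namespace Pool.Agent.Helper32.HB

open Set Filter Pool.Agent.Helper33.HM Pool.Agent.Helper33.HMG

universe u

/-- If the sentence has the value `⊤` in the algebra of regular open subsets of `P`, then it holds
in a countable transitive model of ZFC. -/
theorem exists_model {P : Type u} [Preorder P] [OrderTop P] (h : Val (RO P) = ⊤) :
    ∃ M : Set ZFSet.{0}, M.Countable ∧ IsTransModelZFC M ∧
      Sentence (realsP M) (setsP M) := sorry

end Pool.Agent.Helper32.HB
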